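import Pool.Agent.Helper24.HW.All

/-!
# MP_1b7c1f_co: Heawood's empire problem on almost all surfaces
-/

set_option autoImplicit false

namespace Pool.Agent.Results.MP_1b7c1f_co.AlmostAllSurfaces

open Pool.Agent.Helper24.HWPub

/-- Heawood's number `H = heawood S m` of colours is necessary for `m`-empire maps on the closed
surface `S` unless the Euler characteristic `S.eps` is one of the largest `15 m + 500` values with
this `H`. So for every `m` it is necessary on almost all surfaces: there is an absolute constant `K`
such that among the first `G` orientable (and among the first `G` nonorientable) surfaces there are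
at most `K m (m + √G)` exceptions. -/
theorem result :
    (∀ (S : Surf) (m : ℕ), 1 ≤ m →
      (S.eps : ℝ) + 15 * m + 500 ≤ m * heawood S m - heawood S m * (heawood S m - 1) / 6 →
      Necessary S m) ∧
    ∃ K : ℝ, ∀ m G : ℕ, 1 ≤ m →
      ({g : ℕ | g < G ∧ ¬ Necessary (Surf.ori g) m}.ncard : ℝ) ≤ K * m * (m + Real.sqrt G) ∧
      ({g : ℕ | g < G ∧ ¬ Necessary (Surf.non g) m}.ncard : ℝ) ≤ K * m * (m + Real.sqrt G) :=
  Pool.Agent.Helper24.HW.final

end Pool.Agent.Results.MP_1b7c1f_co.AlmostAllSurfaces
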